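import Mathlib
import Pool.Agent.H.MP_4ec1df_co.B
import Pool.Agent.H.MP_4ec1df_co.C

namespace Pool.Agent.Results.MP_4ec1df_co.Full
open Finset Pool.Agent.H.MP_4ec1df_co

/-- The colouring `c` of `K_{N,N}` has a zero-sum cycle of length `2k`: distinct vertices
`z 0, …, z (2k-1)`, with `z (2k) = z 0`, consecutive ones adjacent, colours summing to zero. -/
def HasZeroSumCycle {N d : ℕ} (c : Sym2 (Fin N ⊕ Fin N) → (Fin d → ZMod 2)) (k : ℕ) : Prop :=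
  ∃ z : ℕ → Fin N ⊕ Fin N, Set.InjOn z (Set.Iio (2 * k)) ∧ z (2 * k) = z 0 ∧
    (∀ i < 2 * k, (completeBipartiteGraph (Fin N) (Fin N)).Adj (z i) (z (i + 1))) ∧
    ∑ i ∈ range (2 * k), c s(z i, z (i + 1)) = 0

/-- The zero-sum bipartite Ramsey number of the family `C_4, C_6, …, C_{2m}` over `Z_2^d`. -/
noncomputable def B (m d : ℕ) : ℕ :=
  sInf {N : ℕ | ∀ c : Sym2 (Fin N ⊕ Fin N) → (Fin d → ZMod 2),
    ∃ k, 2 ≤ k ∧ k ≤ m ∧ HasZeroSumCycle c k}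

theorem adj_iff {N : ℕ} (u v : Fin N ⊕ Fin N) :
    (completeBipartiteGraph (Fin N) (Fin N)).Adj u v ↔ u.isLeft ≠ v.isLeft := by
  rcases u with a | a <;> rcases v with b | b <;> simp

theorem result (m : ℕ) (hm : 2 ≤ m) : ∃ c C : ℝ, 0 < c ∧ c ≤ C ∧ ∃ d₀ : ℕ, ∀ d ≥ d₀,
    c * (2 : ℝ) ^ ((d : ℝ) / ((m : ℝ) - 1)) ≤ B m d ∧
    (B m d : ℝ) ≤ C * (2 : ℝ) ^ ((d : ℝ) / ((m : ℝ) - 1)) := by
  obtain ⟨p, rfl⟩ : ∃ p, m = p + 1 := ⟨m - 1, by omega⟩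
  have hp : 1 ≤ p := by omega
  set K : ℕ := (2 * (2 * p + 2) ^ 2) ^ (p + 1) + 1 with hK
  have hK1 : 1 ≤ K := by omega
  have hK1' : (1 : ℝ) ≤ K := by exact_mod_cast hK1
  refine ⟨1 / 2, 2 * K, by norm_num, by linarith, p, fun d hd => ?_⟩
  have hp' : (0 : ℝ) < p := by exact_mod_cast hp
  have e : ((p + 1 : ℕ) : ℝ) - 1 = p := by push_cast; ring
  rw [e]
  have hs1 : d < (d / p + 1) * p := by
    have := Nat.lt_mul_div_succ d hp
    rwa [mul_comm] at this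
  have hs2 : d / p * p ≤ d := Nat.div_mul_le_self d p
  have mem : K * 2 ^ (d / p + 1) ∈ {N : ℕ | ∀ c : Sym2 (Fin N ⊕ Fin N) → (Fin d → ZMod 2),
      ∃ k, 2 ≤ k ∧ k ≤ p + 1 ∧ HasZeroSumCycle c k} := by
    intro c
    refine ⟨p + 1, hm, le_rfl, ?_⟩
    obtain ⟨z, h1, h2, h3, h4⟩ := upper' Sum.isLeft ((K * 2 ^ (d / p + 1) : ℕ) : ℝ)
      (by positivity) (by intro b; rw [Fintype.sum_sum_type]; cases b <;> simp) p c (by
        have h1 : 2 ^ d * (2 * (2 * p + 2) ^ 2) ^ (p + 1) < (K * 2 ^ (d / p + 1)) ^ p := by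
          rw [mul_pow K, ← pow_mul, mul_comm (K ^ p)]
          apply mul_lt_mul_of_le_of_lt_of_nonneg_of_pos
            (Nat.pow_le_pow_right (by norm_num) hs1.le)
            (lt_of_lt_of_le (Nat.lt_succ_self _) (Nat.le_self_pow (by omega) K))
            (by positivity) (by positivity)
        exact_mod_cast h1)
    exact ⟨z, h1, h2, fun i hi => (adj_iff _ _).mpr (h3 i hi), h4⟩
  constructor
  · have h1 : 2 ^ (d / p) ≤ B (p + 1) d := by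
      by_contra hc
      obtain ⟨c, hc⟩ := lower p d (B (p + 1) d) hp hd (not_le.mp hc).le
      obtain ⟨k, hk1, hk2, z, h1, h2, h3, h4⟩ := Nat.sInf_mem ⟨_, mem⟩ c
      exact hc k hk1 hk2 z h1 h2 (fun i hi => (adj_iff _ _).mp (h3 i hi)) h4
    have h2 : (2 : ℝ) ^ ((d : ℝ) / p) ≤ (2 : ℝ) ^ ((d / p + 1 : ℕ) : ℝ) := by
      apply Real.rpow_le_rpow_of_exponent_le (by norm_num)
      rw [div_le_iff₀ hp']
      exact_mod_cast hs1.le
    rw [Real.rpow_natCast, pow_succ] at h2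
    have h3 : (2 : ℝ) ^ (d / p) ≤ B (p + 1) d := by exact_mod_cast h1
    linarith
  · have h1 : B (p + 1) d ≤ K * 2 ^ (d / p + 1) := Nat.sInf_le mem
    have h2 : (2 : ℝ) ^ ((d / p : ℕ) : ℝ) ≤ (2 : ℝ) ^ ((d : ℝ) / p) := by
      apply Real.rpow_le_rpow_of_exponent_le (by norm_num)
      rw [le_div_iff₀ hp']
      exact_mod_cast hs2
    rw [Real.rpow_natCast] at h2
    have h3 : (B (p + 1) d : ℝ) ≤ K * 2 ^ (d / p + 1) := by exact_mod_cast h1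
    rw [pow_succ] at h3
    nlinarith

end Pool.Agent.Results.MP_4ec1df_co.Full
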